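import Pool.Agent.H63.SEP.Stmts

/-!
Project SEP, module CLC: countable subsystems.
-/

set_option linter.unusedVariables false
set_option synthInstance.maxSize 100000

namespace SW.SEP

open SW

theorem sep_clc (ha : ATMStmt) (hcb : CBTStmt) : CLCStmt := by
  intro M _ _ I c hI hc hcc
  have hC := hcb M
  have hA := ha M
  have hbs : Fn1 (fun e : M => bs e) := bs_df
  have key : ∀ z, E z (sUn (img c (fun e => bs e))) ↔ ∃ e, E e c ∧ E z (bs e) := by
    intro z
    rw [mem_sUn]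
    constructor
    · rintro ⟨y, hy, hz⟩
      rw [mem_img' hbs] at hy
      obtain ⟨e, he, rfl⟩ := hy
      exact ⟨e, he, hz⟩
    · rintro ⟨e, he, hz⟩
      exact ⟨bs e, (mem_img' hbs).2 ⟨e, he, rfl⟩, hz⟩
  have hsub : Sub (bun c (sUn (img c (fun e => bs e)))) I := by
    intro z hz
    rw [mem_bun, key] at hz
    rcases hz with hz | ⟨e, he, hz⟩
    · exact hc z hz
    · exact (hA.sye hI (hc e he)).2.2.2.2.1 z hz
  refine ⟨bun c (sUn (img c (fun e => bs e))), ?_, hsub, ?_, ?_⟩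
  · intro z hz
    rw [mem_bun]
    exact Or.inl hz
  · exact hC.bun hcc (hC.iUn _ hbs hcc fun y hy => (hA.sye hI (hc y hy)).2.2.1)
  · refine hA.sysub hI hsub ?_
    intro d hd z hz
    rw [mem_bun, key] at hd ⊢
    rcases hd with hd | ⟨e, he, hd⟩
    · exact Or.inr ⟨d, hd, hz⟩
    · exact Or.inr ⟨e, he, (hA.sye hI (hc e he)).2.2.2.1 d hd z hz⟩

end SW.SEP
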