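import Pool.Agent.H91.SEP.WXX

/-!
Project SEP, module NAM: names over a system for subsets of a countable set of the ground model.
-/

set_option linter.unusedVariables false
set_option synthInstance.maxSize 100000

namespace SW.SEP

open SW

/-- a countable set is covered by the values of a function on `om` -/
theorem nam_cb {M : Type} [SetStr M] [ZF M] {a : M} (h : Cb a) : Img om a := by
  obtain ⟨f, h1, h2⟩ := h
  have hdf : Fn1 (fun n : M => the (fun y => E y a ∧ E (opair y n) f)) := inferInstance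
  refine ⟨gr om (fun n => the (fun y => E y a ∧ E (opair y n) f)), fun y hy => ?_⟩
  obtain ⟨n, hn, hyn⟩ := h1 y hy
  refine ⟨n, hn, ?_⟩
  rw [app_gr hdf hn]
  symm
  refine the_eq ⟨hy, hyn⟩ fun z hz => ?_
  exact h2 z y n hz.1 hy hn hz.2 hyn

/-- NAM -/
theorem sep_nam (h : CCSStmt) (hn : SW.FU.NNGStmt) (hv : VLXStmt) (hcb : CBTStmt) : NAMStmt := by
  intro M _ _ _ I X G hI hG hX _ a ha
  have hC := hcb M
  have hp1 : Fn1 (fun z : M => opair (p2 z) (p1 z)) := inferInstance
  by_cases hne : ∃ x, E x a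
  · have hV : Img (emb (PF I) G X) a := by
      obtain ⟨x0, hx0⟩ := hne
      have hdf : Fn1 (fun x : Ext (PF I) G => x) := inferInstance
      refine ⟨gr (emb (PF I) G X) (fun x => x), fun y hy => ⟨y, ha y hy, ?_⟩⟩
      rw [app_gr hdf (ha y hy)]
    obtain ⟨e, he1, ⟨f, hf⟩, he3⟩ := hn M (PF I) G X om X hG
      (fun a ha => nam_cb (anf_cb (h M I hI) a ha)) a ha hV hne
    have hce : Cb e := by
      have h1 : Fn1 (fun x : M => app f x) := inferInstance
      refine hC.sub (hC.img _ h1 (hC.prod hX hC.om)) fun y hy => ?_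
      obtain ⟨x, hx, rfl⟩ := hf y hy
      exact (mem_img' h1).2 ⟨x, hx, rfl⟩
    have hnm : Nm I X (img e (fun z => opair (p2 z) (p1 z))) := by
      refine ⟨hC.img _ hp1 hce, ?_⟩
      intro t ht
      rw [mem_img' hp1] at ht
      obtain ⟨z, hz, rfl⟩ := ht
      obtain ⟨x, q, hx, hq, rfl⟩ := he1 z hz
      exact ⟨q, x, hq, hx, by simp⟩
    refine ⟨_, hnm, ?_⟩
    apply ext
    intro z
    rw [hv M I X _ G hnm I hG z]
    constructor
    · intro hz
      obtain ⟨x, hx, rfl⟩ := (embF hG).trans z X (ha z hz)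
      obtain ⟨q, hq, hxq⟩ := (he3 x hx).1 hz
      exact ⟨q, x, (mem_img' hp1).2 ⟨_, hxq, by simp⟩, hq, rfl⟩
    · rintro ⟨q, x, hqx, hq, rfl⟩
      rw [mem_img' hp1] at hqx
      obtain ⟨z, hz, hzz⟩ := hqx
      obtain ⟨x', q', hx', hq', rfl⟩ := he1 z hz
      simp only [p1_opair, p2_opair, opair_inj] at hzz
      obtain ⟨rfl, rfl⟩ := hzz
      exact (he3 _ hx').2 ⟨_, hq, hz⟩
  · have hnm : Nm I X (emp : M) :=
      ⟨hC.fin finF.emp, fun t ht => absurd ht (not_mem_emp t)⟩
    refine ⟨emp, hnm, ?_⟩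
    apply ext
    intro z
    rw [hv M I X _ G hnm I hG z]
    constructor
    · intro hz
      exact absurd ⟨z, hz⟩ hne
    · rintro ⟨q, x, hqx, hq, rfl⟩
      exact absurd hqx (not_mem_emp _)

end SW.SEP
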