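import Pool.Agent.H63.SEP.Stmts

/-!
Project SEP, module SUP: supports of conditions and names.
-/

set_option linter.unusedVariables false
set_option synthInstance.maxSize 100000

namespace SW.SEP

open SW

/-- the indices in `I` which occur in the condition `p` -/
noncomputable def spt {M : Type} [SetStr M] [ZF M] (I p : M) : M :=
  inter (img p (fun a => p1 a)) I

theorem spt_df {M : Type} [SetStr M] [ZF M] : Fn2 (fun I p : M => spt I p) := by
  unfold spt; infer_instance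

theorem mem_spt {M : Type} [SetStr M] [ZF M] {I p e : M} :
    E e (spt I p) ↔ (∃ a, E a p ∧ e = p1 a) ∧ E e I := by
  unfold spt
  rw [mem_inter, mem_img' p1_df]

theorem spt_cb {M : Type} [SetStr M] [ZF M] (hC : CbA M) {I p : M} (hp : E p (PS I)) :
    Cb (spt I p) := by
  refine hC.sub (hC.img _ p1_df (hC.fin (mem_PS.1 hp).1.1)) ?_
  intro z hz
  exact (mem_img' p1_df).2 (mem_spt.1 hz).1

theorem spt_PS {M : Type} [SetStr M] [ZF M] {I p C : M} (hp : E p (PS I))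
    (hc : Sub (spt I p) C) : E p (PS C) := by
  rw [mem_PS] at hp ⊢
  refine ⟨⟨hp.1.1, ?_⟩, hp.2⟩
  intro a ha
  rcases hp.1.2 a ha with h | ⟨e, v, he, hv, rfl⟩ | ⟨e, z, j, he, hz, hj, rfl⟩
  · exact Or.inl h
  · refine Or.inr (Or.inl ⟨e, v, hc e (mem_spt.2 ⟨⟨_, ha, ?_⟩, he⟩), hv, rfl⟩)
    simp [lV]
  · refine Or.inr (Or.inr ⟨e, z, j, hc e (mem_spt.2 ⟨⟨_, ha, ?_⟩, he⟩), hz, hj, rfl⟩)
    simp [lF]

theorem sep_sup (hcb : CBTStmt) : SUPStmt := by
  intro M _ _ I hI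
  have hC := hcb M
  refine ⟨?_, ?_⟩
  · intro p hp
    refine ⟨spt I p, spt_cb hC.toCbA hp, fun z hz => (mem_spt.1 hz).2, ?_⟩
    intro C hc
    exact spt_PS hp hc
  · intro X τ hτ
    have hf : Fn1 (fun t : M => spt I (p1 t)) := by unfold spt; infer_instance
    refine ⟨sUn (img τ (fun t => spt I (p1 t))), ?_, ?_, ?_⟩
    · refine hC.iUn _ hf hτ.1 ?_
      intro t ht
      obtain ⟨q, a, hq, ha, rfl⟩ := hτ.2 t ht
      rw [p1_opair]
      exact spt_cb hC.toCbA hq
    · intro z hz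
      rw [mem_sUn] at hz
      obtain ⟨y, hy, hz⟩ := hz
      rw [mem_img' hf] at hy
      obtain ⟨t, ht, rfl⟩ := hy
      exact (mem_spt.1 hz).2
    · intro C hc
      refine ⟨hτ.1, ?_⟩
      intro t ht
      obtain ⟨q, a, hq, ha, e⟩ := hτ.2 t ht
      refine ⟨q, a, spt_PS hq ?_, ha, e⟩
      intro z hz
      apply hc
      rw [mem_sUn]
      refine ⟨spt I (p1 t), (mem_img' hf).2 ⟨t, ht, rfl⟩, ?_⟩
      rw [e, p1_opair]
      exact hz

end SW.SEP
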