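import Pool.Agent.H63.SEP.Stmts2
import Pool.Agent.H14.FRU.Stmts

/-!
Project SEP, module WXX: the first uncountable ordinal is preserved.
-/

set_option linter.unusedVariables false
set_option synthInstance.maxSize 100000

namespace SW.SEP

open SW

theorem anf_cb {M : Type} [SetStr M] [ZF M] {I : M} (hc : CCC (PS I)) :
    ∀ a, SW.FU.AnF (PF I) a → Cb a := by
  intro a ha
  refine hc a ⟨ha.1, ?_⟩
  intro p q hp hq hpq hcp
  refine ha.2 p q hp hq hpq ?_
  obtain ⟨r, hr, h1, h2⟩ := hcp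
  exact ⟨r, hr, h1, h2⟩

theorem sep_wxx (h : CCSStmt) (hw : SW.FU.WXGStmt) : WXXStmt := by
  intro M _ _ _ I w G hI hG hW _
  exact hw M (PF I) G w (anf_cb (h M I hI)) hG hW

end SW.SEP
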